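import Mathlib
import Pool.Agent.Helper669.Forcing

set_option autoImplicit false

/-!
# Automorphisms of `P(I)/Fin` in the language of forcing

Names for subsets of the ground model set `I` are maps `I → Set P`; names for binary relations on
the power set of `I` are maps `(I → Set P) → (I → Set P) → Set P`.
-/

namespace Run7.h699.Flip

open Pool.Agent.Helper669.Forcing

variable {P I : Type} [Preorder P]

/-- All but finitely many elements of (the set named by) `X` belong to `Y`. -/
def AlmostSub (X Y : I → Set P) : Set P :=
  fex fun D : Finset I => fall fun x => fall fun _ : x ∉ D => fimp (meets (X x)) (meets (Y x))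

/-- `X` and `Y` differ in finitely many elements: `[X] = [Y]` in `P(I)/Fin`. -/
def AlmostEq (X Y : I → Set P) : Set P := fand (AlmostSub X Y) (AlmostSub Y X)

/-- `X ⊆ Y`. -/
def Sub (X Y : I → Set P) : Set P := fall fun x => fimp (meets (X x)) (meets (Y x))

/-- The intersection of `X` and `Y`. -/
def nInf (X Y : I → Set P) : I → Set P := fun x => fand (meets (X x)) (meets (Y x))

/-- The complement of `X`. -/
def nCompl (X : I → Set P) : I → Set P := fun x => fnot (meets (X x))

/-- The image of `B` under the relation `E`. -/
def nImage (E : I → I → Set P) (B : I → Set P) : I → Set P :=
  fun y => fex fun x => fand (meets (B x)) (meets (E x y))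

/-- `R` is the set of all pairs `(X, Y)` of subsets of `I` such that `π [X] = [Y]`, for some
automorphism `π` of the Boolean algebra `P(I)/Fin`: it is compatible with equality modulo finite
sets in both variables, it is a bijection from classes to classes, and it preserves
intersections and complements. -/
def IsAutomorphism (R : (I → Set P) → (I → Set P) → Set P) : Set P :=
  fand
    (fall fun X => fall fun X' => fall fun Y => fall fun Y' =>
      fimp (fand (meets (R X Y)) (fand (AlmostEq X X') (AlmostEq Y Y'))) (meets (R X' Y')))
    (fand
      (fand
        (fall fun X => fex fun Y => meets (R X Y))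
        (fall fun X => fall fun Y => fall fun Y' =>
          fimp (fand (meets (R X Y)) (meets (R X Y'))) (AlmostEq Y Y')))
      (fand
        (fand
          (fall fun Y => fex fun X => meets (R X Y))
          (fall fun X => fall fun X' => fall fun Y =>
            fimp (fand (meets (R X Y)) (meets (R X' Y))) (AlmostEq X X')))
        (fand
          (fall fun X => fall fun Y => fall fun X' => fall fun Y' =>
            fimp (fand (meets (R X Y)) (meets (R X' Y'))) (meets (R (nInf X X') (nInf Y Y'))))
          (fall fun X => fall fun Y =>
            fimp (meets (R X Y)) (meets (R (nCompl X) (nCompl Y)))))))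

/-- The automorphism `R` is trivial on `A`: there is a function `e` (with graph `E`) from `A` to
`I` such that `[B]` is mapped to `[e[B]]` for all `B ⊆ A`. -/
def TrivialOn (R : (I → Set P) → (I → Set P) → Set P) (A : I → Set P) : Set P :=
  fex fun E : I → I → Set P =>
    fand
      (fand
        (fall fun x => fimp (meets (A x)) (fex fun y => meets (E x y)))
        (fall fun x => fall fun y => fall fun y' =>
          fimp (fand (meets (A x)) (fand (meets (E x y)) (meets (E x y')))) (fground (y = y'))))
      (fall fun B : I → Set P => fimp (Sub B A) (meets (R B (nImage E B))))

/-- `A` is countable: it is contained in the range of a function from `ℕ` to `I`. -/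
def CountableSet (A : I → Set P) : Set P :=
  fex fun f : ℕ → I → Set P =>
    fand (IsFun f) (fall fun y => fimp (meets (A y)) (fex fun n => meets (f n y)))

/-- `I` is uncountable in the extension. -/
def StaysUncountable (P I : Type) [Preorder P] : Set P :=
  fnot (CountableSet fun _ : I => (Set.univ : Set P))

end Run7.h699.Flip
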