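import Mathlib
import Pool.Agent.Run7.h699.Flip.Defs

set_option autoImplicit false

/-!
# Cohen conditions, flips
-/

namespace Run7.h699.Flip

open Pool.Agent.Helper669.Forcing

/-! ### Regular sentences -/

section reg

variable {P : Type} [Preorder P]

/-- closed downwards, and containing `p` as soon as it is dense below `p` -/
def Reg (φ : Set P) : Prop := Down φ ∧ ∀ p, (∀ q ≤ p, ∃ r ≤ q, r ∈ φ) → p ∈ φ

theorem reg_fnot (φ : Set P) (h : Down φ) : Reg (fnot φ) := by
  refine ⟨down_fnot φ, fun p hp q hq hq' => ?_⟩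
  obtain ⟨r, hr, hr'⟩ := hp q hq
  exact hr' r le_rfl (h q hq' r hr)

theorem reg_fand {φ ψ : Set P} (h : Reg φ) (h' : Reg ψ) : Reg (fand φ ψ) := by
  refine ⟨down_fand h.1 h'.1, fun p hp => ⟨h.2 p fun q hq => ?_, h'.2 p fun q hq => ?_⟩⟩
  · obtain ⟨r, hr, hr'⟩ := hp q hq
    exact ⟨r, hr, hr'.1⟩
  · obtain ⟨r, hr, hr'⟩ := hp q hq
    exact ⟨r, hr, hr'.2⟩

theorem reg_fall {ι : Sort*} {φ : ι → Set P} (h : ∀ i, Reg (φ i)) : Reg (fall φ) := by
  refine ⟨down_fall fun i => (h i).1, fun p hp i => (h i).2 p fun q hq => ?_⟩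
  obtain ⟨r, hr, hr'⟩ := hp q hq
  exact ⟨r, hr, hr' i⟩

theorem reg_fex {ι : Sort*} (φ : ι → Set P) : Reg (fex φ) :=
  reg_fnot _ (down_fall fun _ => down_fnot _)

theorem reg_meets (N : Set P) : Reg (meets N) := by
  refine ⟨down_meets N, fun p hp q hq => ?_⟩
  obtain ⟨r, hr, hr'⟩ := hp q hq
  obtain ⟨s, hs, t, ht, hst⟩ := hr' r le_rfl
  exact ⟨s, hs.trans hr, t, ht, hst⟩

theorem reg_fground (h : Prop) : Reg (fground (P := P) h) := by
  refine ⟨down_fground h, fun p hp => ?_⟩
  obtain ⟨r, _, hr'⟩ := hp p le_rfl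
  exact hr'

theorem meets_eq {φ : Set P} (h : Reg φ) : meets φ = φ := by
  ext p
  constructor
  · intro hp
    refine h.2 p fun q hq => ?_
    obtain ⟨r, hr, s, hs, hrs⟩ := hp q hq
    exact ⟨r, hr, h.1 s hs r hrs⟩
  · intro hp
    exact meets_of_mem hp

theorem fimp_intro {φ ψ : Set P} {p : P} (h : ∀ q ≤ p, q ∈ φ → q ∈ ψ) : p ∈ fimp φ ψ :=
  mem_fimp.2 fun q hq hq' => ⟨q, le_rfl, h q hq hq'⟩

theorem fimp_elim {φ ψ : Set P} {p : P} (h : p ∈ fimp φ ψ) (hφ : Down φ) (hψ : Reg ψ) {q : P}
    (hq : q ≤ p) (hq' : q ∈ φ) : q ∈ ψ :=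
  hψ.2 q fun r hr => mem_fimp.1 h r (hr.trans hq) (hφ q hq' r hr)

theorem fex_intro {ι : Sort*} {φ : ι → Set P} {p : P} (i : ι) (hd : Down (φ i)) (h : p ∈ φ i) :
    p ∈ fex φ := mem_fex_of_mem i hd h

theorem reg_fimp {φ ψ : Set P} (h : Down φ) : Reg (fimp φ ψ) :=
  reg_fnot _ (down_fand h (down_fnot _))

end reg

/-! ### Finite partial functions -/

/-- The finite partial functions from `I` to `2`. -/
structure Cond (I : Type) where
  /-- the function -/
  f : I → Option Bool
  /-- its domain is finite -/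
  fin : {i | f i ≠ none}.Finite

variable {I : Type}

theorem Cond.ext {p q : Cond I} (h : p.f = q.f) : p = q := by
  cases p; cases q; cases h; rfl

instance : PartialOrder (Cond I) where
  le p q := ∀ i b, q.f i = some b → p.f i = some b
  le_refl p i b h := h
  le_trans p q r h h' i b hb := h i b (h' i b hb)
  le_antisymm p q h h' := by
    apply Cond.ext
    funext i
    cases hq : q.f i with
    | some b => exact h i b hq
    | none =>
      cases hp : p.f i with
      | none => rfl
      | some b => exact absurd (h' i b hp) (by simp [hq])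

theorem le_def {p q : Cond I} : p ≤ q ↔ ∀ i b, q.f i = some b → p.f i = some b := Iff.rfl

instance : Inhabited (Cond I) := ⟨⟨fun _ => none, by simp⟩⟩

/-- the domain -/
noncomputable def Cond.dom (p : Cond I) : Finset I := p.fin.toFinset

theorem Cond.mem_dom {p : Cond I} {i : I} : i ∈ p.dom ↔ p.f i ≠ none := by
  simp [Cond.dom]

theorem Cond.not_mem_dom {p : Cond I} {i : I} : i ∉ p.dom ↔ p.f i = none := by
  simp [Cond.dom]

theorem dom_mono {p q : Cond I} (h : p ≤ q) : q.dom ⊆ p.dom := by
  intro i hi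
  rw [Cond.mem_dom] at hi ⊢
  obtain ⟨b, hb⟩ := Option.ne_none_iff_exists'.1 hi
  rw [h i b hb]; simp

open Classical in
/-- set the value at `x` -/
noncomputable def Cond.set (p : Cond I) (x : I) (b : Bool) : Cond I where
  f i := if i = x then some b else p.f i
  fin := by
    refine (p.fin.union (Set.finite_singleton x)).subset ?_
    intro i hi
    simp only [Set.mem_ofPred_eq] at hi
    split_ifs at hi with h
    · exact Or.inr h
    · exact Or.inl hi

theorem Cond.set_same (p : Cond I) (x : I) (b : Bool) : (p.set x b).f x = some b := by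
  simp [Cond.set]

theorem Cond.set_ne (p : Cond I) {x y : I} (b : Bool) (h : y ≠ x) :
    (p.set x b).f y = p.f y := by
  simp [Cond.set, h]

theorem Cond.set_le {p : Cond I} {x : I} (b : Bool) (h : p.f x = none) : p.set x b ≤ p := by
  intro i c hc
  by_cases hi : i = x
  · rw [hi, h] at hc; simp at hc
  · rw [p.set_ne b hi, hc]

theorem Cond.set_le_of_le {p q : Cond I} {x : I} {b : Bool} (h : p ≤ q) (hb : p.f x = some b) :
    p ≤ q.set x b := by
  intro i c hc
  by_cases hi : i = x
  · rw [hi, Cond.set_same] at hc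
    rw [hi, hb, hc]
  · rw [q.set_ne b hi] at hc
    exact h i c hc

/-- the union -/
noncomputable def Cond.join (p q : Cond I) : Cond I where
  f i := if p.f i = none then q.f i else p.f i
  fin := by
    refine (p.fin.union q.fin).subset ?_
    intro i hi
    simp only [Set.mem_ofPred_eq] at hi
    split_ifs at hi with h
    · exact Or.inr hi
    · exact Or.inl hi

theorem Cond.join_le_left (p q : Cond I) : p.join q ≤ p := by
  intro i b hb
  simp [Cond.join, hb]

theorem Cond.join_le_right {p q : Cond I}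
    (h : ∀ i, p.f i ≠ none → q.f i ≠ none → p.f i = q.f i) : p.join q ≤ q := by
  intro i b hb
  by_cases hp : p.f i = none
  · simp [Cond.join, hp, hb]
  · simp only [Cond.join, hp, if_false]
    rw [h i hp (by simp [hb]), hb]

theorem Cond.join_f_none {p q : Cond I} {i : I} (h : p.f i = none) : (p.join q).f i = q.f i := by
  simp [Cond.join, h]

open Classical in
/-- the flip at `x` -/
noncomputable def flip (x : I) (p : Cond I) : Cond I where
  f i := if i = x then (p.f i).map not else p.f i
  fin := by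
    refine p.fin.subset ?_
    intro i hi
    simp only [Set.mem_ofPred_eq] at hi ⊢
    split_ifs at hi with h
    · intro h'
      exact hi (by simp [h'])
    · exact hi

theorem flip_same (x : I) (p : Cond I) : (flip x p).f x = (p.f x).map not := by
  simp [flip]

theorem flip_ne {x y : I} (p : Cond I) (h : y ≠ x) : (flip x p).f y = p.f y := by
  simp [flip, h]

theorem flip_flip (x : I) (p : Cond I) : flip x (flip x p) = p := by
  apply Cond.ext
  funext i
  by_cases h : i = x
  · subst h
    rw [flip_same, flip_same]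
    cases p.f i <;> simp
  · rw [flip_ne _ h, flip_ne _ h]

theorem flip_mono (x : I) {p q : Cond I} (h : p ≤ q) : flip x p ≤ flip x q := by
  intro i b hb
  by_cases hi : i = x
  · subst hi
    rw [flip_same] at hb ⊢
    cases hq : q.f i with
    | none => rw [hq] at hb; simp at hb
    | some c =>
      rw [hq] at hb
      rw [h i c hq]; exact hb
  · rw [flip_ne _ hi] at hb ⊢
    exact h i b hb

theorem flip_le_iff (x : I) {p q : Cond I} : flip x p ≤ q ↔ p ≤ flip x q := by
  constructor
  · intro h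
    have := flip_mono x h
    rwa [flip_flip] at this
  · intro h
    have := flip_mono x h
    rwa [flip_flip] at this

theorem flip_eq_self {x : I} {p : Cond I} (h : p.f x = none) : flip x p = p := by
  apply Cond.ext
  funext i
  by_cases hi : i = x
  · subst hi
    rw [flip_same, h]; rfl
  · rw [flip_ne _ hi]

/-! ### Two combinatorial lemmas -/

open Classical in
/-- an infinite family of conditions of bounded size has a root -/
theorem exists_root {ι : Type} (q : ι → Cond I) (m : ℕ) : ∀ (r₀ : Cond I) (S : Set ι),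
    S.Infinite → (∀ s ∈ S, q s ≤ r₀ ∧ ((q s).dom \ r₀.dom).card ≤ m) →
    ∃ r ≤ r₀, ∃ S' ⊆ S, S'.Infinite ∧ (∀ s ∈ S', q s ≤ r) ∧
      ∀ D : Finset I, {s ∈ S' | ∃ i ∈ D, (q s).f i ≠ none ∧ r.f i = none}.Finite := by
  induction m with
  | zero =>
    intro r₀ S hS h
    refine ⟨r₀, le_rfl, S, subset_rfl, hS, fun s hs => (h s hs).1, fun D => ?_⟩
    convert Set.finite_empty
    ext s
    simp only [Set.mem_ofPred_eq, Set.mem_empty_iff_false, iff_false]
    rintro ⟨hs, i, -, hi, hi'⟩
    have h1 := (h s hs).2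
    have h2 : i ∈ (q s).dom \ r₀.dom := by
      rw [Finset.mem_sdiff, Cond.mem_dom, Cond.not_mem_dom]
      exact ⟨hi, hi'⟩
    rw [Nat.le_zero, Finset.card_eq_zero] at h1
    rw [h1] at h2
    simp at h2
  | succ m ih =>
    intro r₀ S hS h
    by_cases hc : ∃ i, r₀.f i = none ∧ {s ∈ S | (q s).f i ≠ none}.Infinite
    · obtain ⟨i, hi, hinf⟩ := hc
      have h1 : {s ∈ S | (q s).f i ≠ none} ⊆
          {s ∈ S | (q s).f i = some true} ∪ {s ∈ S | (q s).f i = some false} := by
        rintro s ⟨hs, hs'⟩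
        obtain ⟨b, hb⟩ := Option.ne_none_iff_exists'.1 hs'
        cases b
        · exact Or.inr ⟨hs, hb⟩
        · exact Or.inl ⟨hs, hb⟩
      have h2 := hinf.mono h1
      rw [Set.infinite_union] at h2
      have h3 : ∃ b, {s ∈ S | (q s).f i = some b}.Infinite := by
        rcases h2 with h2 | h2
        · exact ⟨_, h2⟩
        · exact ⟨_, h2⟩
      obtain ⟨b, hb⟩ := h3
      obtain ⟨r, hr, S', hS', hinf', hq, hD⟩ := ih (r₀.set i b) _ hb (by
        rintro s ⟨hs, hs'⟩
        refine ⟨Cond.set_le_of_le (h s hs).1 hs', ?_⟩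
        have h4 : (q s).dom \ (r₀.set i b).dom ⊂ (q s).dom \ r₀.dom := by
          rw [Finset.ssubset_iff_of_subset]
          · refine ⟨i, ?_, ?_⟩
            · rw [Finset.mem_sdiff, Cond.mem_dom, Cond.not_mem_dom]
              exact ⟨by simp [hs'], hi⟩
            · rw [Finset.mem_sdiff, not_and_not_right]
              intro _
              rw [Cond.mem_dom, Cond.set_same]
              simp
          · exact Finset.sdiff_subset_sdiff subset_rfl (dom_mono (Cond.set_le b hi))
        have h5 := Finset.card_lt_card h4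
        have h6 := (h s hs).2
        omega)
      exact ⟨r, hr.trans (Cond.set_le b hi), S', hS'.trans fun s hs => hs.1, hinf', hq, hD⟩
    · push Not at hc
      refine ⟨r₀, le_rfl, S, subset_rfl, hS, fun s hs => (h s hs).1, fun D => ?_⟩
      have h1 : {s ∈ S | ∃ i ∈ D, (q s).f i ≠ none ∧ r₀.f i = none} ⊆
          ⋃ i ∈ D, {s ∈ S | (q s).f i ≠ none ∧ r₀.f i = none} := by
        rintro s ⟨hs, i, hi, hi'⟩
        exact Set.mem_biUnion hi ⟨hs, hi'⟩
      refine Set.Finite.subset (D.finite_toSet.biUnion fun i _ => ?_) h1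
      by_cases hi : r₀.f i = none
      · exact (hc i hi).subset fun s hs => ⟨hs.1, hs.2.1⟩
      · convert Set.finite_empty
        ext s
        simp [hi]

/-- a function without fixed points -/
theorem exists_free {S : Set I} (hS : S.Infinite) (g : I → I) (hg : ∀ s ∈ S, g s ≠ s) :
    ∃ Z ⊆ S, Z.Infinite ∧ ∀ s ∈ Z, g s ∉ Z := by
  by_cases hc : ∃ z, {s ∈ S | g s = z}.Infinite
  · obtain ⟨z, hz⟩ := hc
    refine ⟨{s ∈ S | g s = z}, fun s hs => hs.1, hz, ?_⟩
    rintro s ⟨hs, rfl⟩ ⟨h1, h2⟩
    exact hg _ h1 h2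
  · push Not at hc
    obtain ⟨f, hf, hf'⟩ := exists_seq_of_forall_finset_exists (fun s => s ∈ S)
      (fun x y => x ≠ y ∧ g x ≠ y ∧ g y ≠ x) (by
        intro s hs
        have hfin : ((s : Set I) ∪ g '' s ∪ ⋃ x ∈ s, {y ∈ S | g y = x}).Finite := by
          refine (s.finite_toSet.union (s.finite_toSet.image g)).union ?_
          exact s.finite_toSet.biUnion fun x _ => hc x
        obtain ⟨y, hy, hy'⟩ := hS.exists_notMem_finite hfin
        refine ⟨y, hy, fun x hx => ⟨?_, ?_, ?_⟩⟩
        · rintro rfl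
          exact hy' (Or.inl (Or.inl hx))
        · intro h
          exact hy' (Or.inl (Or.inr ⟨x, hx, h⟩))
        · intro h
          refine hy' (Or.inr (Set.mem_biUnion hx ⟨hy, h⟩)))
    refine ⟨Set.range f, ?_, ?_, ?_⟩
    · rintro _ ⟨n, rfl⟩
      exact hf n
    · refine Set.infinite_range_of_injective fun n m hnm => ?_
      rcases lt_trichotomy n m with h | h | h
      · exact absurd hnm (hf' n m h).1
      · exact h
      · exact absurd hnm.symm (hf' m n h).1
    · rintro _ ⟨n, rfl⟩ ⟨m, hm⟩
      rcases lt_trichotomy n m with h | h | h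
      · exact (hf' n m h).2.1 hm.symm
      · subst h
        exact hg _ (hf n) hm.symm
      · exact (hf' m n h).2.2 hm.symm

end Run7.h699.Flip
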