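import Mathlib
import Pool.Agent.Run7.h699.Flip.Cond

set_option autoImplicit false

/-!
# The flip automorphism of `P(I)/Fin` in the Cohen extension
-/

namespace Run7.h699.Flip

open Pool.Agent.Helper669.Forcing

variable {I : Type}

/-- The action on names: in the extension by `G`, the point `x` belongs to `Psi X` if and only if
it belongs to the evaluation of `X` by the filter obtained from `G` by flipping the `x`-th bit. -/
def Psi (X : I → Set (Cond I)) : I → Set (Cond I) := fun x => {p | flip x p ∈ X x}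

theorem mem_meets_Psi {X : I → Set (Cond I)} {x : I} {p : Cond I} :
    p ∈ meets (Psi X x) ↔ flip x p ∈ meets (X x) := by
  constructor
  · intro h q hq
    obtain ⟨r, hr, s, hs, hrs⟩ := h (flip x q) (by
      have := flip_mono x hq; rwa [flip_flip] at this)
    refine ⟨flip x r, ?_, flip x s, hs, flip_mono x hrs⟩
    have := flip_mono x hr
    rwa [flip_flip] at this
  · intro h q hq
    obtain ⟨r, hr, s, hs, hrs⟩ := h (flip x q) (flip_mono x hq)
    refine ⟨flip x r, ?_, flip x s, ?_, flip_mono x hrs⟩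
    · have := flip_mono x hr
      rwa [flip_flip] at this
    · show flip x (flip x s) ∈ X x
      rwa [flip_flip]

theorem Psi_Psi (X : I → Set (Cond I)) : Psi (Psi X) = X := by
  funext x
  ext p
  show flip x (flip x p) ∈ X x ↔ _
  rw [flip_flip]

/-- `X ⊆ Y` outside of `D`, below `p` -/
def AS (X Y : I → Set (Cond I)) (p : Cond I) (D : Finset I) : Prop :=
  ∀ x ∉ D, ∀ r ≤ p, r ∈ meets (X x) → r ∈ meets (Y x)

theorem mem_AlmostSub {X Y : I → Set (Cond I)} {p : Cond I} :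
    p ∈ AlmostSub X Y ↔ ∀ q ≤ p, ∃ r ≤ q, ∃ D, AS X Y r D := by
  unfold AlmostSub
  rw [mem_fex]
  constructor
  · intro h q hq
    obtain ⟨r, hr, D, hD⟩ := h q hq
    exact ⟨r, hr, D, fun x hx s hs hs' => fimp_elim (hD x hx) (down_meets _) (reg_meets _) hs hs'⟩
  · intro h q hq
    obtain ⟨r, hr, D, hD⟩ := h q hq
    exact ⟨r, hr, D, fun x hx => fimp_intro fun s hs hs' => hD x hx s hs hs'⟩

theorem AS.mono {X Y : I → Set (Cond I)} {p q : Cond I} {D D' : Finset I} (h : AS X Y p D)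
    (hq : q ≤ p) (hD : D ⊆ D') : AS X Y q D' :=
  fun x hx r hr hr' => h x (fun h' => hx (hD h')) r (hr.trans hq) hr'

open Classical in
theorem almostSub_trans {X Y Z : I → Set (Cond I)} {p : Cond I} (h : p ∈ AlmostSub X Y)
    (h' : p ∈ AlmostSub Y Z) : p ∈ AlmostSub X Z := by
  rw [mem_AlmostSub] at *
  intro q hq
  obtain ⟨r, hr, D, hD⟩ := h q hq
  obtain ⟨r', hr', D', hD'⟩ := h' r (hr.trans hq)
  refine ⟨r', hr'.trans hr, D ∪ D', fun x hx s hs hs' => ?_⟩
  rw [Finset.notMem_union] at hx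
  exact hD' x hx.2 s hs (hD x hx.1 s (hs.trans hr') hs')

theorem almostSub_refl (X : I → Set (Cond I)) (p : Cond I) : p ∈ AlmostSub X X :=
  mem_AlmostSub.2 fun q _ => ⟨q, le_rfl, ∅, fun _ _ _ _ h => h⟩

theorem AS.psi {X Y : I → Set (Cond I)} {p : Cond I} {D : Finset I} (h : AS X Y p D) :
    ∃ D', AS (Psi X) (Psi Y) p D' := by
  classical
  refine ⟨D ∪ p.dom, fun x hx r hr hr' => ?_⟩
  rw [Finset.notMem_union, Cond.not_mem_dom] at hx
  rw [mem_meets_Psi] at *
  refine h x hx.1 _ ?_ hr'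
  have := flip_mono x hr
  rwa [flip_eq_self hx.2] at this

theorem almostSub_psi {X Y : I → Set (Cond I)} {p : Cond I} (h : p ∈ AlmostSub X Y) :
    p ∈ AlmostSub (Psi X) (Psi Y) := by
  rw [mem_AlmostSub] at *
  intro q hq
  obtain ⟨r, hr, D, hD⟩ := h q hq
  obtain ⟨D', hD'⟩ := hD.psi
  exact ⟨r, hr, D', hD'⟩

theorem almostEq_refl (X : I → Set (Cond I)) (p : Cond I) : p ∈ AlmostEq X X :=
  ⟨almostSub_refl X p, almostSub_refl X p⟩

theorem almostEq_symm {X Y : I → Set (Cond I)} {p : Cond I} (h : p ∈ AlmostEq X Y) :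
    p ∈ AlmostEq Y X := ⟨h.2, h.1⟩

theorem almostEq_trans {X Y Z : I → Set (Cond I)} {p : Cond I} (h : p ∈ AlmostEq X Y)
    (h' : p ∈ AlmostEq Y Z) : p ∈ AlmostEq X Z := ⟨almostSub_trans h.1 h'.1, almostSub_trans h'.2 h.2⟩

theorem almostEq_psi {X Y : I → Set (Cond I)} {p : Cond I} (h : p ∈ AlmostEq X Y) :
    p ∈ AlmostEq (Psi X) (Psi Y) := ⟨almostSub_psi h.1, almostSub_psi h.2⟩

theorem reg_AlmostEq (X Y : I → Set (Cond I)) : Reg (AlmostEq X Y) :=
  reg_fand (reg_fex _) (reg_fex _)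

/-- the automorphism -/
def Rel (X Y : I → Set (Cond I)) : Set (Cond I) := AlmostEq (Psi X) Y

theorem meets_Rel (X Y : I → Set (Cond I)) : meets (Rel X Y) = AlmostEq (Psi X) Y :=
  meets_eq (reg_AlmostEq _ _)

theorem mem_meets_nInf {X Y : I → Set (Cond I)} {x : I} :
    meets (nInf X Y x) = fand (meets (X x)) (meets (Y x)) :=
  meets_eq (reg_fand (reg_meets _) (reg_meets _))

theorem mem_meets_nCompl {X : I → Set (Cond I)} {x : I} :
    meets (nCompl X x) = fnot (meets (X x)) :=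
  meets_eq (reg_fnot _ (down_meets _))

open Classical in
theorem almostSub_inf {X Y X' Y' : I → Set (Cond I)} {p : Cond I} (h : p ∈ AlmostSub X Y)
    (h' : p ∈ AlmostSub X' Y') : p ∈ AlmostSub (nInf X X') (nInf Y Y') := by
  rw [mem_AlmostSub] at *
  intro q hq
  obtain ⟨r, hr, D, hD⟩ := h q hq
  obtain ⟨r', hr', D', hD'⟩ := h' r (hr.trans hq)
  refine ⟨r', hr'.trans hr, D ∪ D', fun x hx s hs hs' => ?_⟩
  rw [Finset.notMem_union] at hx
  rw [mem_meets_nInf] at *
  exact ⟨hD x hx.1 s (hs.trans hr') hs'.1, hD' x hx.2 s hs hs'.2⟩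

theorem almostSub_compl {X Y : I → Set (Cond I)} {p : Cond I} (h : p ∈ AlmostSub X Y) :
    p ∈ AlmostSub (nCompl Y) (nCompl X) := by
  rw [mem_AlmostSub] at *
  intro q hq
  obtain ⟨r, hr, D, hD⟩ := h q hq
  refine ⟨r, hr, D, fun x hx s hs hs' => ?_⟩
  rw [mem_meets_nCompl] at *
  exact fun t ht ht' => hs' t ht (hD x hx t (ht.trans hs) ht')

theorem Psi_nInf (X Y : I → Set (Cond I)) (p : Cond I) :
    p ∈ AlmostEq (Psi (nInf X Y)) (nInf (Psi X) (Psi Y)) := by
  have key : ∀ x (q : Cond I), q ∈ meets (Psi (nInf X Y) x) ↔ q ∈ meets (nInf (Psi X) (Psi Y) x) := by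
    intro x q
    rw [mem_meets_Psi, mem_meets_nInf, mem_meets_nInf]
    show _ ∧ _ ↔ _ ∧ _
    rw [mem_meets_Psi, mem_meets_Psi]
  exact ⟨mem_AlmostSub.2 fun q _ => ⟨q, le_rfl, ∅, fun x _ r _ h => (key x r).1 h⟩,
    mem_AlmostSub.2 fun q _ => ⟨q, le_rfl, ∅, fun x _ r _ h => (key x r).2 h⟩⟩

theorem Psi_nCompl (X : I → Set (Cond I)) (p : Cond I) :
    p ∈ AlmostEq (Psi (nCompl X)) (nCompl (Psi X)) := by
  have key : ∀ x (q : Cond I), q ∈ meets (Psi (nCompl X) x) ↔ q ∈ meets (nCompl (Psi X) x) := by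
    intro x q
    rw [mem_meets_Psi, mem_meets_nCompl, mem_meets_nCompl]
    constructor
    · intro h r hr hr'
      rw [mem_meets_Psi] at hr'
      exact h _ (flip_mono x hr) hr'
    · intro h r hr hr'
      refine h (flip x r) ?_ ?_
      · have := flip_mono x hr
        rwa [flip_flip] at this
      · rw [mem_meets_Psi, flip_flip]; exact hr'
  exact ⟨mem_AlmostSub.2 fun q _ => ⟨q, le_rfl, ∅, fun x _ r _ h => (key x r).1 h⟩,
    mem_AlmostSub.2 fun q _ => ⟨q, le_rfl, ∅, fun x _ r _ h => (key x r).2 h⟩⟩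

/-- the flip is an automorphism of `P(I)/Fin` -/
theorem isAutomorphism (p : Cond I) : p ∈ IsAutomorphism (P := Cond I) (I := I) Rel := by
  refine ⟨?_, ⟨?_, ?_⟩, ⟨?_, ?_⟩, ?_, ?_⟩
  · intro X X' Y Y'
    refine fimp_intro fun q _ h => ?_
    obtain ⟨h1, h2, h3⟩ := h
    rw [meets_Rel] at *
    exact almostEq_trans (almostEq_trans (almostEq_symm (almostEq_psi h2)) h1) h3
  · intro X
    refine fex_intro (Psi X) (down_meets _) ?_
    rw [meets_Rel]
    exact almostEq_refl _ _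
  · intro X Y Y'
    refine fimp_intro fun q _ h => ?_
    obtain ⟨h1, h2⟩ := h
    rw [meets_Rel] at *
    exact almostEq_trans (almostEq_symm h1) h2
  · intro Y
    refine fex_intro (Psi Y) (down_meets _) ?_
    rw [meets_Rel, Psi_Psi]
    exact almostEq_refl _ _
  · intro X X' Y
    refine fimp_intro fun q _ h => ?_
    obtain ⟨h1, h2⟩ := h
    rw [meets_Rel] at *
    have := almostEq_psi (almostEq_trans h1 (almostEq_symm h2))
    rwa [Psi_Psi, Psi_Psi] at this
  · intro X Y X' Y'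
    refine fimp_intro fun q _ h => ?_
    obtain ⟨h1, h2⟩ := h
    rw [meets_Rel] at *
    exact almostEq_trans (Psi_nInf X X' q) ⟨almostSub_inf h1.1 h2.1, almostSub_inf h1.2 h2.2⟩
  · intro X Y
    refine fimp_intro fun q _ h => ?_
    rw [meets_Rel] at *
    exact almostEq_trans (Psi_nCompl X q) ⟨almostSub_compl h.2, almostSub_compl h.1⟩

/-! ### Countable chain condition -/

theorem compat {r p q : Cond I} (hp : p ≤ r) (hq : q ≤ r)
    (h : ∀ i, p.f i ≠ none → q.f i ≠ none → r.f i ≠ none) :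
    ∀ i, p.f i ≠ none → q.f i ≠ none → p.f i = q.f i := by
  intro i h1 h2
  obtain ⟨b, hb⟩ := Option.ne_none_iff_exists'.1 (h i h1 h2)
  rw [hp i b hb, hq i b hb]

open Classical in
/-- a set of points given by conditions: if it is uncountable then some infinite subset has
conditions with a root -/
theorem countable_or_root {T : I → Cond I → Prop} (q : Cond I) (hT : ∀ x r, T x r → r ≤ q) :
    {x | ∃ r, T x r}.Countable ∨ ∃ (u : I → Cond I) (r : Cond I) (S : Set I), r ≤ q ∧ S.Infinite ∧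
      (∀ s ∈ S, T s (u s) ∧ u s ≤ r) ∧
      ∀ D : Finset I, {s ∈ S | ∃ i ∈ D, (u s).f i ≠ none ∧ r.f i = none}.Finite := by
  by_cases hc : ∃ m : ℕ, {x | ∃ r, T x r ∧ (r.dom \ q.dom).card ≤ m}.Infinite
  · right
    obtain ⟨m, hm⟩ := hc
    choose! u hu using (fun (x : I) (hx : ∃ r, T x r ∧ (r.dom \ q.dom).card ≤ m) => hx)
    obtain ⟨r, hr, S, hS, hinf, h1, h2⟩ := exists_root u m q _ hm
      (fun s hs => ⟨hT s _ (hu s hs).1, (hu s hs).2⟩)
    exact ⟨u, r, S, hr, hinf, fun s hs => ⟨(hu s (hS hs)).1, h1 s hs⟩, h2⟩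
  · left
    push Not at hc
    have h1 : {x | ∃ r, T x r} ⊆ ⋃ m : ℕ, {x | ∃ r, T x r ∧ (r.dom \ q.dom).card ≤ m} := by
      rintro x ⟨r, hr⟩
      exact Set.mem_iUnion.2 ⟨_, r, hr, le_rfl⟩
    exact (Set.countable_iUnion fun m => (hc m).countable).mono h1

theorem countable_values {q : Cond I} {f : ℕ → I → Set (Cond I)} (hf : q ∈ IsFun f) :
    {x | ∃ n, ∃ r ≤ q, r ∈ meets (f n x)}.Countable := by
  have h1 : {x | ∃ n, ∃ r ≤ q, r ∈ meets (f n x)} =
      ⋃ n, {x | ∃ r, r ≤ q ∧ r ∈ meets (f n x)} := by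
    ext x; simp
  rw [h1]
  refine Set.countable_iUnion fun n => ?_
  rcases countable_or_root (T := fun x r => r ≤ q ∧ r ∈ meets (f n x)) q (fun x r h => h.1) with
    h | ⟨u, r, S, hr, hinf, hu, hD⟩
  · exact h
  · exfalso
    obtain ⟨x, hx⟩ := hinf.nonempty
    obtain ⟨y, hy, hy'⟩ := hinf.exists_notMem_finite ((hD (u x).dom).union (Set.finite_singleton x))
    have hxy : y ≠ x := fun h => hy' (Or.inr h)
    have hc := compat (hu x hx).2 (hu y hy).2 (by
      intro i h1 h2 h3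
      exact hy' (Or.inl ⟨hy, i, Cond.mem_dom.2 h1, h2, h3⟩))
    have hj1 := Cond.join_le_left (u x) (u y)
    have hj2 := Cond.join_le_right hc
    have hjq : (u x).join (u y) ≤ q := hj1.trans (hu x hx).1.1
    refine hxy (IsFun.unique (down_IsFun _ _ hf _ hjq)
      (down_meets _ _ (hu y hy).1.2 _ hj2) (down_meets _ _ (hu x hx).1.2 _ hj1))

/-- `I` stays uncountable -/
theorem uncountable_ext [Uncountable I] (p : Cond I) : p ∈ StaysUncountable (Cond I) I := by
  intro q _ hq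
  obtain ⟨r, _, f, hf, hf'⟩ := mem_fex.1 hq q le_rfl
  refine not_countable (α := I) ?_
  have h1 := countable_values hf
  rw [← Set.countable_univ_iff]
  refine h1.mono fun x _ => ?_
  have h2 := fimp_elim (hf' x) (down_meets _) (reg_fex _) le_rfl
    (meets_of_mem (Set.mem_univ r))
  obtain ⟨s, hs, n, hn⟩ := mem_fex.1 h2 r le_rfl
  exact ⟨n, s, hs, hn⟩

/-! ### Nontriviality -/

/-- the data of triviality -/
structure Triv (A : I → Set (Cond I)) (E : I → I → Set (Cond I)) (q : Cond I) : Prop where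
  tot : ∀ x, ∀ r ≤ q, r ∈ meets (A x) → ∃ s ≤ r, ∃ y, s ∈ meets (E x y)
  uniq : ∀ x y y', ∀ r ≤ q, r ∈ meets (A x) → r ∈ meets (E x y) → r ∈ meets (E x y') → y = y'
  img : ∀ B : I → Set (Cond I), (∀ x, ∀ r ≤ q, r ∈ meets (B x) → r ∈ meets (A x)) →
    q ∈ AlmostEq (Psi B) (nImage E B)

theorem exists_triv {A : I → Set (Cond I)} {q : Cond I} (h : q ∈ TrivialOn Rel A) :
    ∃ r ≤ q, ∃ E, Triv A E r := by
  obtain ⟨r, hr, E, ⟨h1, h2⟩, h3⟩ := mem_fex.1 h q le_rfl
  refine ⟨r, hr, E, ?_, ?_, ?_⟩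
  · intro x s hs hs'
    exact mem_fex.1 (fimp_elim (h1 x) (down_meets _) (reg_fex _) hs hs') s le_rfl
  · intro x y y' s hs h4 h5 h6
    exact fimp_elim (h2 x y y') (down_fand (down_meets _) (down_fand (down_meets _) (down_meets _)))
      (reg_fground _) hs ⟨h4, h5, h6⟩
  · intro B hB
    have := fimp_elim (h3 B) (down_fall fun _ => down_fimp _ _) (reg_meets _) le_rfl
      (fun x => fimp_intro fun s hs hs' => hB x s hs hs')
    rwa [meets_Rel] at this

/-- the points which can be moved -/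
def Moved (A : I → Set (Cond I)) (E : I → I → Set (Cond I)) (q : Cond I) : Set I :=
  {x | ∃ r, r ≤ q ∧ r ∈ meets (A x) ∧ ∃ y, y ≠ x ∧ r ∈ meets (E x y)}

theorem moved_countable {A : I → Set (Cond I)} {E : I → I → Set (Cond I)} {q : Cond I}
    (h : Triv A E q) : (Moved A E q).Countable := by
  rcases countable_or_root
    (T := fun x r => r ≤ q ∧ r ∈ meets (A x) ∧ ∃ y, y ≠ x ∧ r ∈ meets (E x y)) q
    (fun x r h => h.1) with h1 | ⟨u, r, S, hr, hinf, hu, hD⟩
  · exact h1
  · exfalso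
    choose! g hg using (fun (x : I) (hx : x ∈ S) => (hu x hx).1.2.2)
    obtain ⟨Z, hZS, hZ, hgZ⟩ := exists_free hinf g (fun s hs => (hg s hs).1)
    set B : I → Set (Cond I) := fun x => {p | x ∈ Z ∧ p ≤ u x} with hB
    have hBA : ∀ x, ∀ p ≤ q, p ∈ meets (B x) → p ∈ meets (A x) := by
      intro x p _ hp
      refine (reg_meets _).2 p fun p' hp' => ?_
      obtain ⟨s, hs, t, ht, hst⟩ := hp p' hp'
      exact ⟨s, hs, down_meets _ _ (hu x (hZS ht.1)).1.2.1 _ (hst.trans ht.2)⟩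
    have h2 := (h.img B hBA).1
    obtain ⟨r', hr', D, hAS⟩ := mem_AlmostSub.1 h2 r hr
    have hfin : ((D : Set I) ∪ r'.dom ∪
        {s ∈ S | ∃ i ∈ r'.dom, (u s).f i ≠ none ∧ r.f i = none}).Finite :=
      (D.finite_toSet.union r'.dom.finite_toSet).union (hD _)
    obtain ⟨s, hs, hs'⟩ := hZ.exists_notMem_finite hfin
    have hs1 : s ∉ D := fun h' => hs' (Or.inl (Or.inl h'))
    have hs2 : s ∉ r'.dom := fun h' => hs' (Or.inl (Or.inr h'))
    have hs3 : ¬ ∃ i ∈ r'.dom, (u s).f i ≠ none ∧ r.f i = none :=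
      fun h' => hs' (Or.inr ⟨hZS hs, h'⟩)
    have hc := compat hr' (hu s (hZS hs)).2 (by
      intro i h3 h4 h5
      exact hs3 ⟨i, Cond.mem_dom.2 h3, h4, h5⟩)
    have hj1 := Cond.join_le_left r' (u s)
    have hj2 := Cond.join_le_right hc
    set v := flip s (r'.join (u s)) with hv
    have hv1 : v ≤ r' := by
      have := flip_mono s hj1
      rwa [flip_eq_self (Cond.not_mem_dom.1 hs2)] at this
    have hv2 : v ∈ meets (Psi B s) := by
      rw [mem_meets_Psi, hv, flip_flip]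
      exact meets_of_mem ⟨hs, hj2⟩
    have hv3 := hAS s hs1 v hv1 hv2
    have hv4 : v ∈ nImage E B s := by
      rwa [show meets (nImage E B s) = nImage E B s from meets_eq (reg_fex _)] at hv3
    obtain ⟨w, hw, x, hx1, hx2⟩ := mem_fex.1 hv4 v le_rfl
    obtain ⟨w', hw', t, ht, hwt⟩ := hx1 w le_rfl
    have hxZ := ht.1
    have hw'u : w' ≤ u x := hwt.trans ht.2
    have h5 := h.uniq x (g x) s w' (hw'u.trans (hu x (hZS hxZ)).1.1)
      (down_meets _ _ (hu x (hZS hxZ)).1.2.1 _ hw'u)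
      (down_meets _ _ (hg x (hZS hxZ)).2 _ hw'u)
      (down_meets _ _ hx2 _ hw')
    exact hgZ x hxZ (h5 ▸ hs)

open Classical in
/-- outside of the points which can be moved, the set is finite -/
theorem finite_fixed {A : I → Set (Cond I)} {E : I → I → Set (Cond I)} {q : Cond I}
    (h : Triv A E q) : ∃ r ≤ q, ∃ D : Finset I, ∀ x, x ∉ Moved A E q → x ∉ D → ∀ s ≤ r,
      s ∉ meets (A x) := by
  set S := Moved A E q with hS
  have hfix : ∀ x, x ∉ S → ∀ r ≤ q, r ∈ meets (A x) → r ∈ meets (E x x) := by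
    intro x hx r hr hr'
    refine (reg_meets _).2 r fun r1 hr1 => ?_
    obtain ⟨s, hs, y, hy⟩ := h.tot x r1 (hr1.trans hr) (down_meets _ _ hr' _ hr1)
    by_cases hxy : y = x
    · subst hxy
      exact ⟨s, hs, hy⟩
    · exact absurd ⟨s, hs.trans (hr1.trans hr), down_meets _ _ hr' _ (hs.trans hr1), y, hxy, hy⟩ hx
  set A' : I → Set (Cond I) := fun x => {p | x ∉ S ∧ p ∈ meets (A x)} with hA'
  set B : I → Set (Cond I) := fun x => {p | x ∉ S ∧ p ∈ meets (A x) ∧ p.f x = some true} with hB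
  have hA'1 : ∀ x (p : Cond I), p ∈ meets (A' x) → x ∉ S ∧ p ∈ meets (A x) := by
    intro x p hp
    constructor
    · obtain ⟨s, _, t, ht, _⟩ := hp p le_rfl
      exact ht.1
    · refine (reg_meets _).2 p fun p' hp' => ?_
      obtain ⟨s, hs, t, ht, hst⟩ := hp p' hp'
      exact ⟨s, hs, down_meets _ _ ht.2 _ hst⟩
  have hB1 : ∀ x (p : Cond I), p ∈ meets (B x) → p ∈ meets (A x) := by
    intro x p hp
    refine (reg_meets _).2 p fun p' hp' => ?_
    obtain ⟨s, hs, t, ht, hst⟩ := hp p' hp'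
    exact ⟨s, hs, down_meets _ _ ht.2.1 _ hst⟩
  have h1 := (h.img A' fun x p _ hp => (hA'1 x p hp).2).2
  have h2 := (h.img B fun x p _ hp => hB1 x p hp).2
  obtain ⟨r1, hr1, D1, hD1⟩ := mem_AlmostSub.1 h1 q le_rfl
  obtain ⟨r, hr, D2, hD2⟩ := mem_AlmostSub.1 h2 r1 hr1
  have hrq : r ≤ q := hr.trans hr1
  refine ⟨r, hrq, D1 ∪ D2 ∪ r.dom, fun x hx hxD s hs hsA => ?_⟩
  rw [Finset.notMem_union, Finset.notMem_union, Cond.not_mem_dom] at hxD
  obtain ⟨⟨hx1, hx2⟩, hx3⟩ := hxD
  -- first case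
  have case1 : ∀ t ≤ r, t ∈ meets (A x) → t.f x = some true → False := by
    intro t ht htA htx
    have h3 : t ∈ meets (nImage E B x) := by
      refine meets_of_mem (fex_intro x (down_fand (down_meets _) (down_meets _)) ⟨?_, ?_⟩)
      · exact meets_of_mem ⟨hx, htA, htx⟩
      · exact hfix x hx t (ht.trans hrq) htA
    have h4 := hD2 x hx2 t ht h3
    rw [mem_meets_Psi] at h4
    obtain ⟨w, hw, v, hv, hwv⟩ := h4 _ le_rfl
    have h5 : w.f x = some true := hwv x true hv.2.2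
    have h6 : w.f x = some false := hw x false (by rw [flip_same, htx]; rfl)
    rw [h5] at h6
    simp at h6
  -- second case
  have case2 : ∀ t ≤ r, t ∈ meets (A x) → t.f x = some false → False := by
    intro t ht htA htx
    have h3 : t ∈ meets (nImage E A' x) := by
      refine meets_of_mem (fex_intro x (down_fand (down_meets _) (down_meets _)) ⟨?_, ?_⟩)
      · exact meets_of_mem ⟨hx, htA⟩
      · exact hfix x hx t (ht.trans hrq) htA
    have h4 := hD1 x hx1 t (ht.trans hr) h3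
    rw [mem_meets_Psi] at h4
    refine case1 (flip x t) ?_ (hA'1 x _ h4).2 (by rw [flip_same, htx]; rfl)
    have := flip_mono x ht
    rwa [flip_eq_self hx3] at this
  cases hsx : s.f x with
  | none =>
    refine case1 (s.set x true) ((Cond.set_le true hsx).trans hs)
      (down_meets _ _ hsA _ (Cond.set_le true hsx)) (Cond.set_same s x true)
  | some b =>
    cases b
    · exact case2 s hs hsA hsx
    · exact case1 s hs hsA hsx

/-- if the automorphism is trivial on `A`, then `A` is covered by a countable ground model set -/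
theorem trivial_cover {A : I → Set (Cond I)} {q : Cond I} (h : q ∈ TrivialOn Rel A) :
    ∃ r ≤ q, ∃ S : Set I, S.Countable ∧ ∀ x ∉ S, ∀ s ≤ r, s ∉ meets (A x) := by
  obtain ⟨r, hr, E, hE⟩ := exists_triv h
  obtain ⟨s, hs, D, hD⟩ := finite_fixed hE
  refine ⟨s, hs.trans hr, Moved A E r ∪ D, (moved_countable hE).union D.countable_toSet,
    fun x hx t ht => ?_⟩
  exact hD x (fun h' => hx (Or.inl h')) (fun h' => hx (Or.inr h')) t ht

theorem down_TrivialOn (R : (I → Set (Cond I)) → (I → Set (Cond I)) → Set (Cond I))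
    (A : I → Set (Cond I)) : Down (TrivialOn R A) := down_fex _

theorem down_CountableSet (A : I → Set (Cond I)) : Down (CountableSet A) := down_fex _

/-- not trivial on any uncountable set -/
theorem not_trivial [Nonempty I] (A : I → Set (Cond I)) (p : Cond I) :
    p ∈ fimp (fnot (CountableSet A)) (fnot (TrivialOn Rel A)) := by
  refine fimp_intro fun q _ hq q1 hq1 htriv => ?_
  obtain ⟨r, hr, S, hS, hA⟩ := trivial_cover htriv
  have hS' : (S ∪ {Classical.arbitrary I}).Countable := hS.union (Set.countable_singleton _)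
  obtain ⟨e, he⟩ := hS'.exists_eq_range ⟨_, Or.inr rfl⟩
  refine hq r (hr.trans hq1) ?_
  refine fex_intro (fun (n : ℕ) (y : I) => fground (e n = y))
    (down_fand (down_IsFun _) (down_fall fun _ => down_fimp _ _)) ⟨⟨?_, ?_⟩, ?_⟩
  · intro n
    exact fex_intro (e n) (down_meets _) (meets_of_mem rfl)
  · intro n y y'
    refine fimp_intro fun s _ h => ?_
    obtain ⟨h1, h2⟩ := h
    rw [meets_eq (reg_fground _)] at h1 h2
    exact h1.symm.trans h2
  · intro y
    refine fimp_intro fun s hs hsA => ?_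
    have hy : y ∈ S := by
      by_contra hy
      exact hA y hy s hs hsA
    have : y ∈ Set.range e := by rw [← he]; exact Or.inl hy
    obtain ⟨n, hn⟩ := this
    exact fex_intro n (down_meets _) (meets_of_mem hn)

/-- not trivial on any cocountable set -/
theorem not_trivial_co [Uncountable I] (A : I → Set (Cond I)) (p : Cond I) :
    p ∈ fimp (CountableSet (nCompl A)) (fnot (TrivialOn Rel A)) := by
  refine fimp_intro fun q _ hq q1 hq1 htriv => ?_
  obtain ⟨r, hr, S, hS, hA⟩ := trivial_cover htriv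
  obtain ⟨s, hs, f, hf, hf'⟩ := mem_fex.1 hq r (hr.trans hq1)
  have h1 := hS.union (countable_values hf)
  have h2 : ∃ x, x ∉ S ∪ {x | ∃ n, ∃ r ≤ s, r ∈ meets (f n x)} := by
    by_contra hcon
    push Not at hcon
    refine not_countable (α := I) ?_
    rw [← Set.countable_univ_iff]
    exact h1.mono fun x _ => hcon x
  obtain ⟨x, hx⟩ := h2
  have h3 : s ∈ meets (nCompl A x) := by
    rw [mem_meets_nCompl]
    intro t ht
    exact hA x (fun h => hx (Or.inl h)) t (ht.trans hs)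
  have h4 := fimp_elim (hf' x) (down_meets _) (reg_fex _) le_rfl h3
  obtain ⟨t, ht, n, hn⟩ := mem_fex.1 h4 s le_rfl
  exact hx (Or.inr ⟨n, t, ht, hn⟩)

end Run7.h699.Flip
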